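import Mathlib
import Pool.Agent.H544.BC.M19

/-!
# Bounded clusters of prime values, for almost all constant terms

Let `f_1, ..., f_k` be integer polynomials of one degree `d ≥ 1` with positive leading coefficients and non-constant
differences, where `k ≥ k_0(d, m, η)`. For almost all constants `c ≤ A`, `A` of the order of `x ^ d`, for which no prime
divides `∏_j (f_j(n) + c)` at every `n`, a positive proportion (at least `1 / binom(k_0, m)`) of the `m`-element sets `T`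
of indices has the property that `f_j(n) + c`, `j ∈ T`, are simultaneously prime for at least `x ^ (1 - η)` of the `n ≤ x`.

For `d ≥ 2` this applies to the translates `f_j(n) = P(n + h_j)` of one polynomial `P` and any distinct integers `h_j`;
then the only local condition is that `P + c` has no fixed prime divisor. For the polynomials `X ^ d + c` of the problem there
is no local condition at all: for almost all `c` of the order of `x ^ d` the polynomial `n ^ d + c` takes at least `m` prime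
values in each of `x ^ (1 - η)` intervals of the bounded length `k_0` below `x`, at arguments of arbitrary given patterns
`n + h_j` (a positive proportion of the `m`-element subsets of any `k` given numbers `h_j`). Only the constant term varies.
-/

set_option autoImplicit false

namespace Pool.Agent.Results.MP_10deed_nt.ClustersAlmostAllConstants

open Finset Polynomial
open Pool.Agent.H544.BC

open Classical in
/-- the `n ≤ x` at which `f_j(n) + c` is a prime for every `j ∈ T` -/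
noncomputable def primeArguments {k : ℕ} (f : Fin k → ℤ[X]) (c x : ℕ) (T : Finset (Fin k)) : Finset ℕ :=
  (Finset.Icc 1 x).filter (fun n : ℕ => ∀ j ∈ T, ∃ p : ℕ, p.Prime ∧ (f j).eval (n : ℤ) + (c : ℤ) = (p : ℤ))

open Classical in
/-- the `m`-element sets `T` of indices for which the `f_j(n) + c`, `j ∈ T`, are simultaneously prime for at least
`x ^ (1 - η)` of the `n ≤ x` -/
noncomputable def richSets {k : ℕ} (f : Fin k → ℤ[X]) (c x m : ℕ) (η : ℝ) : Finset (Finset (Fin k)) :=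
  (Finset.powersetCard m Finset.univ).filter (fun T => (x : ℝ) ^ (1 - η) ≤ ((primeArguments f c x T).card : ℝ))

/-- no prime divides `∏_j (f_j(n) + c)` at every integer `n` -/
def NoFixedDivisor {k : ℕ} (f : Fin k → ℤ[X]) (c : ℕ) : Prop :=
  ∀ p : ℕ, p.Prime → ∃ n : ℤ, ∀ j, ¬ (p : ℤ) ∣ (f j).eval n + (c : ℤ)

/-- the translates `P(n + h_j)` of one polynomial -/
noncomputable def translates {k : ℕ} (P : ℤ[X]) (h : Fin k → ℤ) : Fin k → ℤ[X] := fun j => P.comp (X + C (h j))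

lemma core {k : ℕ} (k0 m d B : ℕ) (hm : m ≤ k0) (hk : k0 ≤ k) (f : Fin k → ℤ[X]) (η : ℝ) (hη : 0 < η) (Q : ℕ → Prop)
    (h : ∀ H : Finset (Fin k), #H = k0 → ∀ ε : ℝ, 0 < ε → ∃ x0 : ℕ, ∀ x : ℕ, x0 ≤ x → ∀ A : ℕ, A ≤ B * x ^ d → x ^ d ≤ B * A →
      ∃ Bad : Finset ℕ, (#Bad : ℝ) ≤ ε * A ∧ ∀ c ∈ Icc 1 A, c ∉ Bad → Q c → (x : ℝ) ^ (1 - η / 2) ≤ #(GG (fun j : H => f j) (Icc 1 x) m c))
    (ε : ℝ) (hε : 0 < ε) : ∃ x0 : ℕ, ∀ x : ℕ, x0 ≤ x → ∀ A : ℕ, A ≤ B * x ^ d → x ^ d ≤ B * A →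
      ∃ Bad : Finset ℕ, (#Bad : ℝ) ≤ ε * A ∧ ∀ c ∈ Icc 1 A, c ∉ Bad → Q c → k.choose m ≤ k0.choose m * #(richSets f c x m η) := by
  classical
  set Hs := powersetCard k0 (univ : Finset (Fin k)) with hHs
  have hHn : 0 < #Hs := by
    rw [hHs, card_powersetCard, card_univ, Fintype.card_fin]
    exact Nat.choose_pos hk
  have hHr : (0 : ℝ) < #Hs := by exact_mod_cast hHn
  have h1 : ∀ H : Finset (Fin k), ∃ x0 : ℕ, #H = k0 → ∀ x : ℕ, x0 ≤ x → ∀ A : ℕ, A ≤ B * x ^ d → x ^ d ≤ B * A →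
      ∃ Bad : Finset ℕ, (#Bad : ℝ) ≤ ε / #Hs * A ∧ ∀ c ∈ Icc 1 A, c ∉ Bad → Q c → (x : ℝ) ^ (1 - η / 2) ≤ #(GG (fun j : H => f j) (Icc 1 x) m c) := by
    intro H
    by_cases hH : #H = k0
    · obtain ⟨x0, hx0⟩ := h H hH (ε / #Hs) (by positivity)
      exact ⟨x0, fun _ => hx0⟩
    · exact ⟨0, fun h2 => absurd h2 hH⟩
  choose x0 hx0 using h1
  obtain ⟨x2, hx2⟩ := Filter.eventually_atTop.1 (Pool.Agent.N913.MT.evt_log_pow (η / 2) (by positivity) (k0.choose m : ℝ) 0)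
  refine ⟨∑ H ∈ Hs, x0 H + x2 + 1, fun x hx A hA1 hA2 => ?_⟩
  have hxH : ∀ H ∈ Hs, x0 H ≤ x := fun H hH => by
    have := single_le_sum (f := x0) (fun _ _ => Nat.zero_le _) hH
    omega
  have gx := hx2 x (by omega)
  rw [pow_zero, mul_one] at gx
  have hx1 : (1 : ℝ) ≤ x := by exact_mod_cast (by omega : 1 ≤ x)
  have hxp : (0 : ℝ) < x := by linarith
  have h2 : ∀ H : Finset (Fin k), ∃ Bad : Finset ℕ, H ∈ Hs → (#Bad : ℝ) ≤ ε / #Hs * A ∧
      ∀ c ∈ Icc 1 A, c ∉ Bad → Q c → (x : ℝ) ^ (1 - η / 2) ≤ #(GG (fun j : H => f j) (Icc 1 x) m c) := by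
    intro H
    by_cases hH : H ∈ Hs
    · obtain ⟨Bad, hB⟩ := hx0 H (mem_powersetCard.1 hH).2 x (hxH H hH) A hA1 hA2
      exact ⟨Bad, fun _ => hB⟩
    · exact ⟨∅, fun h2 => absurd h2 hH⟩
  choose Bf hBf using h2
  refine ⟨Hs.biUnion Bf, ?_, fun c hc hcB hQ => ?_⟩
  · have h3 : (#(Hs.biUnion Bf) : ℝ) ≤ ∑ H ∈ Hs, (#(Bf H) : ℝ) := by exact_mod_cast card_biUnion_le
    refine h3.trans ((sum_le_sum fun H hH => (hBf H hH).1).trans (le_of_eq ?_))
    rw [sum_const, nsmul_eq_mul]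
    field_simp
  · apply prop_count k0 m hm hk
    · intro T hT
      unfold richSets at hT
      rw [mem_filter, mem_powersetCard] at hT
      exact hT.1.2
    · intro H hH
      have hHmem : H ∈ Hs := mem_powersetCard.2 ⟨subset_univ _, hH⟩
      have h3 := (hBf H hHmem).2 c hc (fun h4 => hcB (mem_biUnion.2 ⟨H, hHmem, h4⟩)) hQ
      have h4 : GG (fun j : H => f j) (Icc 1 x) m c = (Icc 1 x).filter (fun n : ℕ => m ≤ #(H.filter (fun j => ((c : ℤ) + (f j).eval (n : ℤ)).toNat.Prime))) := by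
        unfold GG
        apply filter_congr
        intro n _
        have h5 : #((univ : Finset H).filter (fun j : H => ((c : ℤ) + (f j).eval (n : ℤ)).toNat.Prime)) = #(H.filter (fun j => ((c : ℤ) + (f j).eval (n : ℤ)).toNat.Prime)) := by
          refine card_bij (fun j _ => (j : Fin k)) ?_ ?_ ?_
          · intro j hj
            exact mem_filter.2 ⟨j.2, (mem_filter.1 hj).2⟩
          · intro a _ b _ hab
            exact Subtype.ext hab
          · intro j hj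
            exact ⟨⟨j, (mem_filter.1 hj).1⟩, mem_filter.2 ⟨mem_univ _, (mem_filter.1 hj).2⟩, rfl⟩
        rw [h5]
      rw [h4] at h3
      obtain ⟨T, hT1, hT2, hT3⟩ := pig H m (by rw [hH]; exact hm) (Icc 1 x) (fun j n => ((c : ℤ) + (f j).eval (n : ℤ)).toNat.Prime) ((x : ℝ) ^ (1 - η)) (by
        refine le_trans ?_ h3
        rw [hH]
        calc (x : ℝ) ^ (1 - η) * (k0.choose m : ℝ) ≤ (x : ℝ) ^ (1 - η) * (x : ℝ) ^ (η / 2) := mul_le_mul_of_nonneg_left gx (by positivity)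
          _ = (x : ℝ) ^ (1 - η / 2) := by
            rw [← Real.rpow_add hxp]
            congr 1
            ring)
      refine ⟨T, ?_, hT1⟩
      unfold richSets
      rw [mem_filter, mem_powersetCard]
      refine ⟨⟨subset_univ _, hT2⟩, hT3.trans (le_of_eq ?_)⟩
      unfold primeArguments
      congr! 5 with n j
      rw [toNat_prime, add_comm]

open Classical in
theorem clusters (d m : ℕ) (hd : 1 ≤ d) (η : ℝ) (hη : 0 < η) : ∃ k0 : ℕ, m ≤ k0 ∧ ∀ k : ℕ, k0 ≤ k →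
    -- systems of polynomials with non-constant differences
    (∀ f : Fin k → ℤ[X], (∀ j, (f j).natDegree = d ∧ 0 < (f j).leadingCoeff) → (∀ i j, i ≠ j → 1 ≤ (f i - f j).natDegree) →
      ∀ (B : ℕ) (ε : ℝ), 0 < ε → ∃ x0 : ℕ, ∀ x : ℕ, x0 ≤ x → ∀ A : ℕ, A ≤ B * x ^ d → x ^ d ≤ B * A →
      (((Finset.Icc 1 A).filter (fun c : ℕ => NoFixedDivisor f c ∧
        ¬ k.choose m ≤ k0.choose m * (richSets f c x m η).card)).card : ℝ) ≤ ε * A) ∧
    -- the translates of one polynomial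
    (2 ≤ d → ∀ P : ℤ[X], P.natDegree = d → 0 < P.leadingCoeff → ∀ h : Fin k → ℤ, Function.Injective h →
      ∀ (B : ℕ) (ε : ℝ), 0 < ε → ∃ x0 : ℕ, ∀ x : ℕ, x0 ≤ x → ∀ A : ℕ, A ≤ B * x ^ d → x ^ d ≤ B * A →
      (((Finset.Icc 1 A).filter (fun c : ℕ => NoFixedDivisor (fun _ : Fin 1 => P) c ∧
        ¬ k.choose m ≤ k0.choose m * (richSets (translates P h) c x m η).card)).card : ℝ) ≤ ε * A) := by
  obtain ⟨k1, hk1⟩ := fam2 d m hd (η / 2) (by positivity)
  obtain ⟨k2, hk2⟩ : ∃ k2 : ℕ, 2 ≤ d → ∀ (J : Type) [Fintype J] [DecidableEq J], k2 ≤ Fintype.card J →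
    ∀ P : ℤ[X], P.natDegree = d → 0 < P.leadingCoeff → ∀ h : J → ℤ, Function.Injective h →
    ∀ (B : ℕ) (ε : ℝ), 0 < ε → ∃ x0 : ℕ, ∀ x : ℕ, x0 ≤ x → ∀ A : ℕ, A ≤ B * x ^ d → x ^ d ≤ B * A →
    ∃ Bad : Finset ℕ, (#Bad : ℝ) ≤ ε * A ∧ ∀ c ∈ Icc 1 A, c ∉ Bad → (∀ p : ℕ, p.Prime → ∃ n : ℤ, ¬ (p : ℤ) ∣ (c : ℤ) + P.eval n) →
      (x : ℝ) ^ (1 - η / 2) ≤ #(GG (fun j => P.comp (X + C (h j))) (Icc 1 x) m c) := by
    by_cases h2 : 2 ≤ d
    · obtain ⟨k2, hk2⟩ := transl_thm d m h2 (η / 2) (by positivity)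
      exact ⟨k2, fun _ => hk2⟩
    · exact ⟨0, fun h3 => absurd h3 h2⟩
  refine ⟨m + k1 + k2, by omega, fun k hk => ⟨?_, ?_⟩⟩
  · intro f hf hdf B ε hε
    obtain ⟨x0, hx0⟩ := core (m + k1 + k2) m d B (by omega) hk f η hη (fun c => NoFixedDivisor f c) (by
      intro H hH ε' hε'
      obtain ⟨x0, hx0⟩ := hk1 H (by rw [Fintype.card_coe]; omega) (fun j => f j) (fun j => (hf j).1) (fun j => (hf j).2)
        (fun i j hij => hdf i j (fun h => hij (Subtype.ext h))) B ε' hε'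
      refine ⟨x0, fun x hx A hA1 hA2 => ?_⟩
      obtain ⟨Bad, hB1, hB2⟩ := hx0 x hx A hA1 hA2
      refine ⟨Bad, hB1, fun c hc hcB hQ => hB2 c hc hcB ?_⟩
      intro p hp
      obtain ⟨n, hn⟩ := hQ p hp
      exact ⟨n, fun j => by rw [add_comm]; exact hn j⟩) ε hε
    refine ⟨x0, fun x hx A hA1 hA2 => ?_⟩
    obtain ⟨Bad, hB1, hB2⟩ := hx0 x hx A hA1 hA2
    refine le_trans ?_ hB1
    have : (Icc 1 A).filter (fun c : ℕ => NoFixedDivisor f c ∧ ¬ k.choose m ≤ (m + k1 + k2).choose m * (richSets f c x m η).card) ⊆ Bad := by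
      intro c hc
      rw [mem_filter] at hc
      by_contra hcB
      exact hc.2.2 (hB2 c hc.1 hcB hc.2.1)
    exact_mod_cast card_le_card this
  · intro h2 P hP hl h hinj B ε hε
    obtain ⟨x0, hx0⟩ := core (m + k1 + k2) m d B (by omega) hk (translates P h) η hη (fun c => NoFixedDivisor (fun _ : Fin 1 => P) c) (by
      intro H hH ε' hε'
      obtain ⟨x0, hx0⟩ := hk2 h2 H (by rw [Fintype.card_coe]; omega) P hP hl (fun j : H => h j) (fun i j hij => Subtype.ext (hinj hij)) B ε' hε'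
      refine ⟨x0, fun x hx A hA1 hA2 => ?_⟩
      obtain ⟨Bad, hB1, hB2⟩ := hx0 x hx A hA1 hA2
      refine ⟨Bad, hB1, fun c hc hcB hQ => hB2 c hc hcB ?_⟩
      intro p hp
      obtain ⟨n, hn⟩ := hQ p hp
      exact ⟨n, by rw [add_comm]; exact hn 0⟩) ε hε
    refine ⟨x0, fun x hx A hA1 hA2 => ?_⟩
    obtain ⟨Bad, hB1, hB2⟩ := hx0 x hx A hA1 hA2
    refine le_trans ?_ hB1
    have : (Icc 1 A).filter (fun c : ℕ => NoFixedDivisor (fun _ : Fin 1 => P) c ∧ ¬ k.choose m ≤ (m + k1 + k2).choose m * (richSets (translates P h) c x m η).card) ⊆ Bad := by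
      intro c hc
      rw [mem_filter] at hc
      by_contra hcB
      exact hc.2.2 (hB2 c hc.1 hcB hc.2.1)
    exact_mod_cast card_le_card this

open Classical in
/-- **Clusters of prime values for almost all constant terms.** The third part is about the polynomials `X ^ d + c` of the
problem, for all `d ≥ 2`, with no local condition. -/
theorem result (d m : ℕ) (hd : 1 ≤ d) (η : ℝ) (hη : 0 < η) : ∃ k0 : ℕ, m ≤ k0 ∧ ∀ k : ℕ, k0 ≤ k →
    -- systems of polynomials with non-constant differences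
    (∀ f : Fin k → ℤ[X], (∀ j, (f j).natDegree = d ∧ 0 < (f j).leadingCoeff) → (∀ i j, i ≠ j → 1 ≤ (f i - f j).natDegree) →
      ∀ (B : ℕ) (ε : ℝ), 0 < ε → ∃ x0 : ℕ, ∀ x : ℕ, x0 ≤ x → ∀ A : ℕ, A ≤ B * x ^ d → x ^ d ≤ B * A →
      (((Finset.Icc 1 A).filter (fun c : ℕ => NoFixedDivisor f c ∧
        ¬ k.choose m ≤ k0.choose m * (richSets f c x m η).card)).card : ℝ) ≤ ε * A) ∧
    -- the translates of one polynomial
    (2 ≤ d → ∀ P : ℤ[X], P.natDegree = d → 0 < P.leadingCoeff → ∀ h : Fin k → ℤ, Function.Injective h →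
      ∀ (B : ℕ) (ε : ℝ), 0 < ε → ∃ x0 : ℕ, ∀ x : ℕ, x0 ≤ x → ∀ A : ℕ, A ≤ B * x ^ d → x ^ d ≤ B * A →
      (((Finset.Icc 1 A).filter (fun c : ℕ => NoFixedDivisor (fun _ : Fin 1 => P) c ∧
        ¬ k.choose m ≤ k0.choose m * (richSets (translates P h) c x m η).card)).card : ℝ) ≤ ε * A) ∧
    -- the powers: no local condition
    (2 ≤ d → ∀ h : Fin k → ℤ, Function.Injective h →
      ∀ (B : ℕ) (ε : ℝ), 0 < ε → ∃ x0 : ℕ, ∀ x : ℕ, x0 ≤ x → ∀ A : ℕ, A ≤ B * x ^ d → x ^ d ≤ B * A →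
      (((Finset.Icc 1 A).filter (fun c : ℕ =>
        ¬ k.choose m ≤ k0.choose m * (richSets (translates (X ^ d) h) c x m η).card)).card : ℝ) ≤ ε * A) := by
  classical
  obtain ⟨k0, hk0, h⟩ := clusters d m hd η hη
  refine ⟨k0, hk0, fun k hk => ⟨(h k hk).1, (h k hk).2, ?_⟩⟩
  intro hd2 hh hinj B ε hε
  obtain ⟨x0, hx0⟩ := (h k hk).2 hd2 (X ^ d) (natDegree_X_pow d) (by simp) hh hinj B ε hε
  refine ⟨x0, fun x hx A hA1 hA2 => le_trans ?_ (hx0 x hx A hA1 hA2)⟩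
  have hsub : (Finset.Icc 1 A).filter (fun c : ℕ =>
      ¬ k.choose m ≤ k0.choose m * (richSets (translates (X ^ d) hh) c x m η).card) ⊆
      (Finset.Icc 1 A).filter (fun c : ℕ => NoFixedDivisor (fun _ : Fin 1 => (X ^ d : ℤ[X])) c ∧
        ¬ k.choose m ≤ k0.choose m * (richSets (translates (X ^ d) hh) c x m η).card) := by
    intro c hc
    rw [Finset.mem_filter] at hc ⊢
    refine ⟨hc.1, ?_, hc.2⟩
    intro p hp
    by_cases hpc : (p : ℤ) ∣ (c : ℤ)
    · refine ⟨1, fun _ hdv => ?_⟩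
      rw [eval_pow, eval_X, one_pow] at hdv
      have h1 : (p : ℤ) ∣ 1 := (Int.dvd_add_left hpc).1 hdv
      have h2 : p ∣ 1 := by exact_mod_cast h1
      exact hp.one_lt.ne' (Nat.dvd_one.1 h2)
    · refine ⟨0, fun _ hdv => hpc ?_⟩
      rwa [eval_pow, eval_X, zero_pow (by omega), zero_add] at hdv
  exact_mod_cast Finset.card_le_card hsub

end Pool.Agent.Results.MP_10deed_nt.ClustersAlmostAllConstants
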